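import Pool.Agent.Ore.Rank
import Pool.Agent.Ore.Exist

open Pool.Agent.Ore

namespace Pool.Agent.Results.MP_62e324_al.OreRSRC

universe u v

/-- **Main theorem.** Let `σ` be a surjective endomorphism of a ring `R` and `δ` a `σ`-derivation.
If `R` satisfies the right strong rank condition, so does the Ore extension `A = R[x; σ, δ]`. -/
theorem result : ∀ (R : Type u) [Ring R] (σ : R →+* R) (δ : R → R), Function.Surjective σ →
    IsSkewDerivation σ δ → RSRC R →
    ∀ (A : Type v) [Ring A] (ι : R →+* A) (x : A), IsOreExtension σ δ ι x → RSRC A := by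
  intro R _ σ δ hσ _ hR A _ ι x hA
  exact rsrc_of_isOreExtension hσ hA hR

/-- The Ore extension exists for all `R`, `σ`, `δ`. -/
theorem ore_extension_exists (R : Type u) [Ring R] (σ : R →+* R) (δ : R → R)
    (h : IsSkewDerivation σ δ) : ∃ (A : Type u) (_ : Ring A) (ι : R →+* A) (x : A),
      IsOreExtension σ δ ι x :=
  exists_isOreExtension h

end Pool.Agent.Results.MP_62e324_al.OreRSRC
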